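import Pool.Agent.LPV.Stmts

/-!
# Squad LPV, row PSG: kernels of degree `l` are positive
-/

set_option autoImplicit false

noncomputable section

open MeasureTheory Filter Topology
open scoped RealInnerProductSpace

namespace Pool.Agent.LPV.H36

open Pool.Agent.LPK Pool.Agent.LPV

theorem e1_add (s t : List ℤ) : ∃ u : List ℤ, ∀ x : ℝ, e1 u x = e1 s x + e1 t x := by
  induction s generalizing t with
  | nil => exact ⟨t, fun x => by simp [e1]⟩
  | cons a s ih =>
    cases t with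
    | nil => exact ⟨a :: s, fun x => by simp [e1]⟩
    | cons b t =>
      obtain ⟨u, hu⟩ := ih t
      refine ⟨(a + b) :: u, fun x => ?_⟩
      simp only [e1, hu]
      push_cast
      ring

theorem e1_mul_pow (s : List ℤ) (k : ℕ) : ∃ u : List ℤ, ∀ x : ℝ, e1 u x = e1 s x * (1 + x) ^ k := by
  induction k with
  | zero => exact ⟨s, fun x => by simp⟩
  | succ k ih =>
    obtain ⟨u, hu⟩ := ih
    obtain ⟨w, hw⟩ := e1_add u (0 :: u)
    refine ⟨w, fun x => ?_⟩
    rw [hw]
    simp only [e1, hu]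
    push_cast
    ring

theorem abs_e1_le (s : List ℤ) (x : ℝ) (hx : 0 ≤ x) :
    |e1 s x| ≤ e1 (s.map fun c => |c|) x := by
  induction s with
  | nil => simp [e1]
  | cons a s ih =>
    simp only [List.map_cons, e1]
    refine (abs_add_le _ _).trans ?_
    rw [abs_mul, abs_of_nonneg hx]
    push_cast
    exact add_le_add le_rfl (mul_le_mul_of_nonneg_left ih hx)

theorem psg (sum : SumStmt) (fis : FisStmt) : PsgStmt := by
  intro n κ b b' hn hdu l z hz s
  obtain ⟨N, φ, C, hφ, hk⟩ := fis n l z hn hz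
  obtain ⟨u, hu⟩ := e1_mul_pow (s.map fun c => |c|) l
  have hS : Summable fun a : Fin n → ℤ => W1 u (pt b a) :=
    (sum n κ κ b b b' b' hdu hdu).2.2.1 u
  have hf : ∀ i, Summable fun a : Fin n → ℤ => W1 s (pt b a) * φ i (pt b a) := by
    intro i
    apply Summable.of_norm_bounded (hS.mul_left C)
    intro a
    have hA : 0 ≤ ‖pt b a‖ ^ 2 := by positivity
    have hG : 0 ≤ G (pt b a) := (Real.exp_pos _).le
    have h1 := abs_e1_le s _ hA
    have h2 := hφ i (pt b a)
    have h3 : 0 ≤ e1 (s.map fun c => |c|) (‖pt b a‖ ^ 2) := (abs_nonneg _).trans h1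
    unfold W1
    rw [Real.norm_eq_abs, abs_mul, abs_mul, abs_of_nonneg hG, hu]
    calc |e1 s (‖pt b a‖ ^ 2)| * G (pt b a) * |φ i (pt b a)|
        ≤ e1 (s.map fun c => |c|) (‖pt b a‖ ^ 2) * G (pt b a) * |φ i (pt b a)| :=
          mul_le_mul_of_nonneg_right (mul_le_mul_of_nonneg_right h1 hG) (abs_nonneg _)
      _ ≤ e1 (s.map fun c => |c|) (‖pt b a‖ ^ 2) * G (pt b a) *
          (C * (1 + ‖pt b a‖ ^ 2) ^ l) := mul_le_mul_of_nonneg_left h2 (mul_nonneg h3 hG)
      _ = C * (e1 (s.map fun c => |c|) (‖pt b a‖ ^ 2) * (1 + ‖pt b a‖ ^ 2) ^ l * G (pt b a)) := by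
          ring
  have hfun : (fun a : Z2 n => W1 s (pt b a.1) * W1 s (pt b a.2) *
      zk l z (‖pt b a.1‖ ^ 2) (‖pt b a.2‖ ^ 2) ⟪pt b a.1, pt b a.2⟫) =
      fun a : Z2 n => ∑ i, (W1 s (pt b a.1) * φ i (pt b a.1)) *
        (W1 s (pt b a.2) * φ i (pt b a.2)) := by
    funext a
    rw [hk, Finset.mul_sum]
    apply Finset.sum_congr rfl
    intro i _
    ring
  have hp : ∀ i, Summable fun a : Z2 n => (W1 s (pt b a.1) * φ i (pt b a.1)) *
      (W1 s (pt b a.2) * φ i (pt b a.2)) := fun i =>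
    summable_mul_of_summable_norm (hf i).norm (hf i).norm
  rw [hfun]
  refine ⟨summable_sum fun i _ => hp i, ?_⟩
  rw [Summable.tsum_finsetSum fun i _ => hp i]
  apply Finset.sum_nonneg
  intro i _
  have h := tsum_mul_tsum_of_summable_norm (hf i).norm (hf i).norm
  refine le_of_le_of_eq ?_ h
  exact mul_self_nonneg _

end Pool.Agent.LPV.H36
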